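import Pool.Agent.Q264.LK.Stm

/-!
# Project LK (helper264), job BR: components and classes
-/

set_option autoImplicit false

open Finset
open scoped Classical

namespace Pool.Agent.Q154.LK

open Pool.Agent.Q264.LK

lemma reach_of_walk {V : Type} (G : SimpleGraph V) (B : Finset V) {a b : V}
    (p : (res G B).Walk a b) : ∀ (ha : a ∈ (B : Set V)) (hb : b ∈ (B : Set V)),
    (G.induce (B : Set V)).Reachable ⟨a, ha⟩ ⟨b, hb⟩ := by
  induction p with
  | nil => intro _ _; exact SimpleGraph.Reachable.refl _
  | cons h p ih =>
    intro ha hb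
    have hc := h.2.2
    have h1 : (G.induce (B : Set V)).Adj ⟨_, ha⟩ ⟨_, Finset.mem_coe.2 hc⟩ := by
      simpa using h.1
    exact h1.reachable.trans (ih (Finset.mem_coe.2 hc) hb)

lemma reach_iff {V : Type} (G : SimpleGraph V) (B : Finset V) (a b : V) (ha : a ∈ (B : Set V))
    (hb : b ∈ (B : Set V)) :
    (G.induce (B : Set V)).Reachable ⟨a, ha⟩ ⟨b, hb⟩ ↔ (res G B).Reachable a b := by
  constructor
  · intro h
    let φ : (G.induce (B : Set V)) →g res G B :=
      { toFun := fun x => x.1
        map_rel' := fun {x y} hxy => ⟨by simpa using hxy, Finset.mem_coe.1 x.2,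
          Finset.mem_coe.1 y.2⟩ }
    exact h.map φ
  · rintro ⟨p⟩
    exact reach_of_walk G B p ha hb

theorem t_BR : S_BR := by
  intro V _ G B
  unfold CC
  have hcl : ∀ a b : V, cl G B a = cl G B b ↔ (res G B).Reachable a b := by
    intro a b
    constructor
    · intro h
      have h1 : b ∈ cl G B b := by
        unfold cl
        rw [Finset.mem_filter]
        exact ⟨Finset.mem_univ _, SimpleGraph.Reachable.refl _⟩
      rw [← h] at h1
      unfold cl at h1
      exact (Finset.mem_filter.1 h1).2
    · intro h
      unfold cl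
      ext c
      rw [Finset.mem_filter, Finset.mem_filter]
      exact and_congr_right fun _ => ⟨fun h1 => h.symm.trans h1, fun h1 => h.trans h1⟩
  let f : (G.induce (B : Set V)).ConnectedComponent → ↥(B.image (cl G B)) :=
    SimpleGraph.ConnectedComponent.lift
      (fun v => ⟨cl G B v.1, Finset.mem_image_of_mem _ (Finset.mem_coe.1 v.2)⟩)
      (by
        rintro ⟨v, hv⟩ ⟨w, hw⟩ p _
        apply Subtype.ext
        exact (hcl v w).2 ((reach_iff G B v w hv hw).1 p.reachable))
  have hf : Function.Bijective f := by
    constructor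
    · intro x y hxy
      induction x using SimpleGraph.ConnectedComponent.ind with
      | _ v =>
      induction y using SimpleGraph.ConnectedComponent.ind with
      | _ w =>
      obtain ⟨v, hv⟩ := v
      obtain ⟨w, hw⟩ := w
      have h1 : cl G B v = cl G B w := congrArg Subtype.val hxy
      exact SimpleGraph.ConnectedComponent.sound ((reach_iff G B v w hv hw).2 ((hcl v w).1 h1))
    · rintro ⟨s, hs⟩
      obtain ⟨v, hv, rfl⟩ := Finset.mem_image.1 hs
      exact ⟨(G.induce (B : Set V)).connectedComponentMk ⟨v, Finset.mem_coe.2 hv⟩, rfl⟩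
  rw [Nat.card_eq_of_bijective f hf, Nat.card_eq_fintype_card, Fintype.card_coe]

end Pool.Agent.Q154.LK
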